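import Mathlib
import Pool.Agent.H60R3.SymBlock

/-!
# Group topologies on powers of `Sym(ℕ)`

If all the tails of a constant family of involutions, and in each coordinate the tails of one
involution, converge to the identity in a group topology on `Sym(ℕ)^ι`, then this topology is
coarser than the topology of pointwise convergence.
-/

set_option linter.style.haveILetI false

namespace Pool.Agent.Y397.RS

open Function Filter Topology Pool.Agent.H60R3

/-- Conjugate of the standard involution `v 0`. -/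
def C (p : Equiv.Perm ℕ) : Prop := ∃ h : Equiv.Perm ℕ, p = h * Sym.v 0 * h⁻¹

theorem C_of {a : ℕ → ℕ} (ha : Involutive a) (hX : {x | x < a x}.Infinite)
    (hF : {x | a x = x}.Infinite) : C ha.toPerm := by
  obtain ⟨g, hg⟩ := Sym.exists_conj ha hX hF
  refine ⟨g, ?_⟩
  have h := hg 0
  rw [Nat.count_zero] at h
  rw [← h]
  ext z
  rw [Sym.cut_apply]
  unfold Sym.cutf
  rw [if_pos ⟨Nat.zero_le _, Nat.zero_le _⟩]
  rfl

/-- Every involution is a product of two conjugates of `v 0`. -/
theorem two_conj (f : ℕ → ℕ) (hf : Involutive f) :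
    ∃ p q, C p ∧ C q ∧ hf.toPerm = p * q := by
  classical
  by_cases hX : {x | x < f x}.Infinite
  · let X : ℕ → Prop := fun x => x < f x
    have hX' : (Set.ofPred X).Infinite := hX
    let idx : ℕ → ℕ := fun z => Nat.count X (min z (f z))
    have hidx : ∀ z, idx (f z) = idx z := fun z => by
      change Nat.count X (min (f z) (f (f z))) = _
      rw [hf z, min_comm]
    let fr : ℕ → ℕ → ℕ := fun r z => if idx z % 2 = r then f z else z
    have hfr : ∀ r, Involutive (fr r) := by
      intro r z
      change (if idx (if idx z % 2 = r then f z else z) % 2 = r then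
        f (if idx z % 2 = r then f z else z) else (if idx z % 2 = r then f z else z)) = z
      by_cases h : idx z % 2 = r
      · rw [if_pos h, hidx z, if_pos h, hf z]
      · rw [if_neg h, if_neg h]
    have hnth : ∀ k, Nat.nth X k < f (Nat.nth X k) := fun k => Nat.nth_mem_of_infinite hX' k
    have hidn : ∀ k, idx (Nat.nth X k) = k := fun k => by
      change Nat.count X (min (Nat.nth X k) (f (Nat.nth X k))) = k
      rw [min_eq_left (hnth k).le, Nat.count_nth_of_infinite hX']
    have hmono : StrictMono (Nat.nth X) := Nat.nth_strictMono hX'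
    have hXr : ∀ r, r < 2 → {x | x < fr r x}.Infinite := by
      intro r hr
      rw [Set.infinite_iff_exists_gt]
      intro b
      refine ⟨Nat.nth X (2 * (b + 1) + r), ?_, ?_⟩
      · have e : fr r (Nat.nth X (2 * (b + 1) + r)) = f (Nat.nth X (2 * (b + 1) + r)) :=
          if_pos (by rw [hidn]; omega)
        rw [Set.mem_ofPred_eq, e]
        exact hnth _
      · have e : 2 * (b + 1) + r ≤ Nat.nth X (2 * (b + 1) + r) := hmono.id_le _
        exact lt_of_lt_of_le (by omega) e
    have hFr : ∀ r, r < 2 → {x | fr r x = x}.Infinite := by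
      intro r hr
      rw [Set.infinite_iff_exists_gt]
      intro b
      refine ⟨Nat.nth X (2 * (b + 1) + (1 - r)), ?_, ?_⟩
      · rw [Set.mem_ofPred_eq]
        exact if_neg (by rw [hidn]; omega)
      · have e : 2 * (b + 1) + (1 - r) ≤ Nat.nth X (2 * (b + 1) + (1 - r)) := hmono.id_le _
        exact lt_of_lt_of_le (by omega) e
    refine ⟨_, _, C_of (hfr 0) (hXr 0 (by norm_num)) (hFr 0 (by norm_num)),
      C_of (hfr 1) (hXr 1 (by norm_num)) (hFr 1 (by norm_num)), ?_⟩
    ext z
    rw [Equiv.Perm.mul_apply]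
    change f z = fr 0 (fr 1 z)
    by_cases h : idx z % 2 = 1
    · have e1 : fr 1 z = f z := if_pos h
      have e2 : fr 0 (f z) = f z := if_neg (by rw [hidx z]; omega)
      rw [e1, e2]
    · have e1 : fr 1 z = z := if_neg h
      have e2 : fr 0 z = f z := if_pos (by omega)
      rw [e1, e2]
  · have hfin : {x | x < f x}.Finite := Set.not_infinite.1 hX
    obtain ⟨B, hB⟩ := hfin.bddAbove
    obtain ⟨N, hN⟩ : ∃ N, ∀ z, N ≤ z → f z = z := by
      refine ⟨B + (Finset.range (B + 1)).sup f + 1, fun z hz => ?_⟩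
      rcases lt_trichotomy z (f z) with h | h | h
      · have := hB h
        omega
      · exact h.symm
      · have h1 : f z ∈ {x | x < f x} := by
          change f z < f (f z)
          rw [hf z]
          exact h
        have h2 := hB h1
        have h3 : f z ∈ Finset.range (B + 1) := Finset.mem_range.2 (by omega)
        have h4 := Finset.le_sup (f := f) h3
        rw [hf z] at h4
        omega
    have hlt : ∀ z, z < 4 * N → f z < 4 * N := by
      intro z hz
      by_contra h
      have h1 := hN (f z) (by omega)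
      rw [hf z] at h1
      omega
    have hw : ∀ z, 4 * N ≤ z → 4 * N ≤ Sym.w N z := by
      intro z hz
      unfold Sym.w
      split_ifs <;> omega
    let F : ℕ → ℕ := fun z => if z < 4 * N then f z else Sym.w N z
    have hF : Involutive F := by
      intro z
      change (if (if z < 4 * N then f z else Sym.w N z) < 4 * N then
        f (if z < 4 * N then f z else Sym.w N z) else
          Sym.w N (if z < 4 * N then f z else Sym.w N z)) = z
      by_cases h : z < 4 * N
      · rw [if_pos h, if_pos (hlt z h), hf z]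
      · rw [if_neg h, if_neg (not_lt.2 (hw z (not_lt.1 h))), Sym.w_invol N z]
    have hFX : {x | x < F x}.Infinite := by
      rw [Set.infinite_iff_exists_gt]
      intro b
      refine ⟨4 * (N + b + 1), ?_, by omega⟩
      change 4 * (N + b + 1) < if 4 * (N + b + 1) < 4 * N then _ else Sym.w N (4 * (N + b + 1))
      rw [if_neg (by omega)]
      unfold Sym.w
      rw [if_pos (by omega), if_pos (by omega)]
      omega
    have hFF : {x | F x = x}.Infinite := by
      rw [Set.infinite_iff_exists_gt]
      intro b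
      refine ⟨4 * (N + b + 1) + 2, ?_, by omega⟩
      change (if 4 * (N + b + 1) + 2 < 4 * N then _ else Sym.w N (4 * (N + b + 1) + 2)) = _
      rw [if_neg (by omega)]
      unfold Sym.w
      rw [if_pos (by omega), if_neg (by omega), if_neg (by omega)]
    have hwX : {x | x < Sym.w N x}.Infinite := by
      rw [Set.infinite_iff_exists_gt]
      intro b
      refine ⟨4 * (N + b + 1), ?_, by omega⟩
      change 4 * (N + b + 1) < Sym.w N (4 * (N + b + 1))
      unfold Sym.w
      rw [if_pos (by omega), if_pos (by omega)]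
      omega
    have hwF : {x | Sym.w N x = x}.Infinite := by
      rw [Set.infinite_iff_exists_gt]
      intro b
      refine ⟨4 * (N + b + 1) + 2, ?_, by omega⟩
      change Sym.w N (4 * (N + b + 1) + 2) = _
      unfold Sym.w
      rw [if_pos (by omega), if_neg (by omega), if_neg (by omega)]
    refine ⟨_, _, C_of hF hFX hFF, C_of (Sym.w_invol N) hwX hwF, ?_⟩
    ext z
    rw [Equiv.Perm.mul_apply]
    change f z = F (Sym.w N z)
    by_cases h : z < 4 * N
    · have e1 : Sym.w N z = z := by
        unfold Sym.w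
        rw [if_neg (by omega)]
      have e2 : F z = f z := if_pos h
      rw [e1, e2]
    · have e1 : F (Sym.w N z) = Sym.w N (Sym.w N z) :=
        if_neg (not_lt.2 (hw z (not_lt.1 h)))
      rw [e1, Sym.w_invol N z]
      exact hN z (by omega)

/-- Every permutation is a product of four conjugates of `v 0`. -/
theorem four_conj (g : Equiv.Perm ℕ) :
    ∃ t : Fin 4 → Equiv.Perm ℕ, (∀ k, C (t k)) ∧ g = t 0 * t 1 * t 2 * t 3 := by
  obtain ⟨a, b, ha, hb, hg, _⟩ := Sym.exists_two_involutive g
  obtain ⟨p, q, hp, hq, h1⟩ := two_conj b hb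
  obtain ⟨r, s, hr, hs, h2⟩ := two_conj a ha
  refine ⟨![p, q, r, s], fun k => ?_, ?_⟩
  · fin_cases k
    · exact hp
    · exact hq
    · exact hr
    · exact hs
  · change g = p * q * r * s
    rw [hg, h1, h2, mul_assoc (p * q)]

section

variable {ι : Type} (enc : ι → ℕ)

/-- The part of `x` in the coordinates of index at least `n`. -/
def trunc (n : ℕ) (x : ι → Equiv.Perm ℕ) : ι → Equiv.Perm ℕ :=
  fun i => if n ≤ enc i then x i else 1

theorem trunc_mul (n : ℕ) (x y : ι → Equiv.Perm ℕ) :
    trunc enc n (x * y) = trunc enc n x * trunc enc n y := by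
  funext i
  rw [Pi.mul_apply]
  unfold trunc
  by_cases h : n ≤ enc i
  · rw [if_pos h, if_pos h, if_pos h]
    rfl
  · rw [if_neg h, if_neg h, if_neg h, mul_one]

variable {enc}
variable {σ : TopologicalSpace (ι → Equiv.Perm ℕ)}
  (hσ : @IsTopologicalGroup (ι → Equiv.Perm ℕ) σ _)
  (hz : Tendsto (fun k => trunc enc k (fun _ => Sym.v 0)) atTop (@nhds _ σ 1))

include hσ hz

theorem trunc_tendsto {t : ι → Equiv.Perm ℕ} (ht : ∀ i, C (t i)) :
    Tendsto (fun k => trunc enc k t) atTop (@nhds _ σ 1) := by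
  choose h hh using ht
  have h1 : Tendsto (fun k => h * trunc enc k (fun _ => Sym.v 0) * h⁻¹) atTop
      (@nhds _ σ (h * 1 * h⁻¹)) := (tendsto_const_nhds.mul hz).mul tendsto_const_nhds
  rw [mul_one, mul_inv_cancel] at h1
  refine h1.congr fun k => ?_
  funext i
  rw [Pi.mul_apply, Pi.mul_apply, Pi.inv_apply]
  unfold trunc
  by_cases hk : k ≤ enc i
  · rw [if_pos hk, if_pos hk]
    exact (hh i).symm
  · rw [if_neg hk, if_neg hk, mul_one, mul_inv_cancel]

theorem window {V : Set (ι → Equiv.Perm ℕ)} (hV : V ∈ @nhds _ σ 1) :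
    ∃ n, ∀ t : ι → Equiv.Perm ℕ, (∀ i, C (t i)) → ∀ m, n ≤ m →
      ∃ p ∈ V, ∃ q ∈ V, trunc enc n t * (trunc enc m t)⁻¹ = p * q⁻¹ := by
  by_contra hcon
  push Not at hcon
  choose t ht m hm hbad using hcon
  have h1V : (1 : ι → Equiv.Perm ℕ) ∈ V := mem_of_mem_nhds hV
  have hlt : ∀ n, n < m n := by
    intro n
    rcases lt_or_eq_of_le (hm n) with h | h
    · exact h
    · exfalso
      apply hbad n 1 h1V 1 h1V
      rw [← h, mul_inv_cancel, inv_one, mul_one]
  obtain ⟨st, hst0, hst1⟩ : ∃ st : ℕ → ℕ, st 0 = 0 ∧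
      ∀ l, st (l + 1) = if m (st l) ≤ l + 1 then l + 1 else st l :=
    ⟨fun k => Nat.rec (motive := fun _ => ℕ) 0 (fun l x => if m x ≤ l + 1 then l + 1 else x) k,
      rfl, fun _ => rfl⟩
  have F2 : ∀ n, st n = n → ∀ l, n ≤ l → l < m n → st l = n := by
    intro n hn l hl
    induction l, hl using Nat.le_induction with
    | base => intro _; exact hn
    | succ l hl ih =>
      intro h
      rw [hst1, ih (by omega), if_neg (by omega)]
  have F3 : ∀ n, st n = n → st (m n) = m n := by
    intro n hn
    have h1 := hlt n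
    obtain ⟨l, hl⟩ : ∃ l, m n = l + 1 := ⟨m n - 1, by omega⟩
    rw [hl, hst1, F2 n hn l (by omega) (by omega), if_pos (by omega)]
  have F4 : ∀ K, ∃ n, K ≤ n ∧ st n = n := by
    intro K
    induction K with
    | zero => exact ⟨0, le_rfl, hst0⟩
    | succ K ih =>
      obtain ⟨n, hn1, hn2⟩ := ih
      have := hlt n
      exact ⟨m n, by omega, F3 n hn2⟩
  let y : ι → Equiv.Perm ℕ := fun i => t (st (enc i)) i
  have hy : ∀ i, C (y i) := fun i => ht _ i
  have h2 := trunc_tendsto hσ hz hy hV
  rw [mem_map, mem_atTop_sets] at h2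
  obtain ⟨K, hK⟩ := h2
  obtain ⟨n, hn1, hn2⟩ := F4 K
  have h3 := hlt n
  refine hbad n _ (hK n hn1) _ (hK (m n) (by omega)) ?_
  funext i
  rw [Pi.mul_apply, Pi.inv_apply, Pi.mul_apply, Pi.inv_apply]
  change (if n ≤ enc i then t n i else 1) * (if m n ≤ enc i then t n i else 1)⁻¹ =
    (if n ≤ enc i then y i else 1) * (if m n ≤ enc i then y i else 1)⁻¹
  by_cases h4 : m n ≤ enc i
  · rw [if_pos h4, if_pos h4, if_pos (by omega), if_pos (by omega), mul_inv_cancel,
      mul_inv_cancel]
  · rw [if_neg h4, if_neg h4]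
    by_cases h5 : n ≤ enc i
    · rw [if_pos h5, if_pos h5]
      have h6 : y i = t n i := by
        change t (st (enc i)) i = _
        rw [F2 n hn2 (enc i) h5 (by omega)]
      rw [h6]
    · rw [if_neg h5, if_neg h5]

/-- Everything in the coordinates of large index is small. -/
theorem trunc_mem {W : Set (ι → Equiv.Perm ℕ)} (hW : W ∈ @nhds _ σ 1) :
    ∃ n, ∀ x : ι → Equiv.Perm ℕ, trunc enc n x ∈ W := by
  obtain ⟨W1, hW1, hW2⟩ := exists_nhds_one_split4 hW
  obtain ⟨V4, hV4, hV5⟩ := exists_nhds_one_split4 hW1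
  have hV6 : V4⁻¹ ∈ @nhds _ σ 1 := inv_mem_nhds_one _ hV4
  have h1V : (1 : ι → Equiv.Perm ℕ) ∈ V4 := mem_of_mem_nhds hV4
  obtain ⟨n, hn⟩ := window hσ hz (V := V4 ∩ V4⁻¹) (inter_mem hV4 hV6)
  have key : ∀ t : ι → Equiv.Perm ℕ, (∀ i, C (t i)) → trunc enc n t ∈ W1 := by
    intro t ht
    have h2 := trunc_tendsto hσ hz ht hV4
    rw [mem_map, mem_atTop_sets] at h2
    obtain ⟨K, hK⟩ := h2
    obtain ⟨p, hp, q, hq, hpq⟩ := hn t ht (max n K) (le_max_left _ _)
    have h3 := hV5 hp.1 hq.2 (hK (max n K) (le_max_right _ _)) h1V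
    have h4 : trunc enc n t = p * q⁻¹ * trunc enc (max n K) t * 1 := by
      rw [mul_one, ← hpq, inv_mul_cancel_right]
    rw [h4]
    exact h3
  refine ⟨n, fun x => ?_⟩
  choose t ht hx using fun i => four_conj (x i)
  have h5 : x = (fun i => t i 0) * (fun i => t i 1) * (fun i => t i 2) * (fun i => t i 3) := by
    funext i
    exact hx i
  rw [h5, trunc_mul, trunc_mul, trunc_mul]
  exact hW2 (key _ fun i => ht i 0) (key _ fun i => ht i 1) (key _ fun i => ht i 2)
    (key _ fun i => ht i 3)

omit hz in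
open Classical in
/-- Finitely many coordinates. -/
theorem finite_mem (hm : ∀ i, Tendsto (fun j => (Pi.mulSingle i (Sym.v j) : ι → Equiv.Perm ℕ))
    atTop (@nhds _ σ 1)) (J : Finset ι) : ∀ W ∈ @nhds _ σ (1 : ι → Equiv.Perm ℕ),
    ∃ m, ∀ x : ι → Equiv.Perm ℕ, (∀ i ∈ J, ∀ y, y < m → x i y = y) →
      (fun i => if i ∈ J then x i else 1) ∈ W := by
  induction J using Finset.induction_on with
  | empty =>
    intro W hW
    refine ⟨0, fun x _ => ?_⟩
    have h1 : (1 : ι → Equiv.Perm ℕ) ∈ W := mem_of_mem_nhds hW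
    have h2 : (fun i => if i ∈ (∅ : Finset ι) then x i else 1) = (1 : ι → Equiv.Perm ℕ) := by
      funext i
      rw [if_neg (Finset.notMem_empty i)]
      rfl
    rw [h2]
    exact h1
  | insert i J hi ih =>
    intro W hW
    obtain ⟨V, hV, hV2⟩ := exists_nhds_one_split hW
    obtain ⟨m2, hm2⟩ := ih V hV
    -- the topology of one coordinate
    let ψ : Equiv.Perm ℕ →* (ι → Equiv.Perm ℕ) := MonoidHom.mulSingle (fun _ => Equiv.Perm ℕ) i
    have hψ : @IsTopologicalGroup (Equiv.Perm ℕ) (TopologicalSpace.induced ψ σ) _ :=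
      topologicalGroup_induced ψ
    have e : @nhds _ (TopologicalSpace.induced ψ σ) (1 : Equiv.Perm ℕ) =
        comap ψ (@nhds _ σ (ψ 1)) := @nhds_induced _ _ σ ψ 1
    rw [map_one] at e
    have hv : Tendsto Sym.v atTop (@nhds _ (TopologicalSpace.induced ψ σ) 1) := by
      rw [e, tendsto_comap_iff]
      exact hm i
    have hV3 : ψ ⁻¹' V ∈ @nhds _ (TopologicalSpace.induced ψ σ) (1 : Equiv.Perm ℕ) := by
      rw [e]
      exact preimage_mem_comap hV
    obtain ⟨m1, hm1⟩ := Sym.stab_mem hψ hv hV3
    refine ⟨max m1 m2, fun x hx => ?_⟩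
    have h1 : ψ (x i) ∈ V := hm1 (x i) fun z hz =>
      hx i (Finset.mem_insert_self i J) z (lt_of_lt_of_le hz (le_max_left _ _))
    have h2 := hm2 x fun j hj z hz =>
      hx j (Finset.mem_insert_of_mem hj) z (lt_of_lt_of_le hz (le_max_right _ _))
    have h3 : (fun j => if j ∈ insert i J then x j else 1) =
        ψ (x i) * (fun j => if j ∈ J then x j else 1) := by
      funext j
      rw [Pi.mul_apply]
      change _ = (Pi.mulSingle i (x i) : ι → Equiv.Perm ℕ) j * _
      by_cases hj : j = i
      · subst hj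
        rw [if_pos (Finset.mem_insert_self j J), if_neg hi, Pi.mulSingle_eq_same, mul_one]
      · rw [Pi.mulSingle_eq_of_ne hj, one_mul]
        by_cases h4 : j ∈ J
        · rw [if_pos h4, if_pos (Finset.mem_insert_of_mem h4)]
        · rw [if_neg h4, if_neg (fun h => h4 ((Finset.mem_insert.1 h).resolve_left hj))]
    rw [h3]
    exact hV2 _ h1 _ h2

open Classical in
/-- Every neighbourhood of the identity contains the stabiliser of a finite set of points. -/
theorem stab_mem (henc : Injective enc)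
    (hm : ∀ i, Tendsto (fun j => (Pi.mulSingle i (Sym.v j) : ι → Equiv.Perm ℕ))
      atTop (@nhds _ σ 1)) {W : Set (ι → Equiv.Perm ℕ)} (hW : W ∈ @nhds _ σ 1) :
    ∃ n, ∀ x : ι → Equiv.Perm ℕ, (∀ i, enc i < n → ∀ y, y < n → x i y = y) → x ∈ W := by
  obtain ⟨V, hV, hV2⟩ := exists_nhds_one_split hW
  obtain ⟨n, hn⟩ := trunc_mem hσ hz hV
  have hfin : {i | enc i < n}.Finite := (Set.finite_Iio n).preimage henc.injOn
  obtain ⟨m, hm'⟩ := finite_mem hσ hm hfin.toFinset V hV
  refine ⟨max n m, fun x hx => ?_⟩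
  have h1 := hm' x fun i hi y hy => by
    rw [Set.Finite.mem_toFinset] at hi
    exact hx i (lt_of_lt_of_le hi (le_max_left _ _)) y (lt_of_lt_of_le hy (le_max_right _ _))
  have h2 : x = (fun i => if i ∈ hfin.toFinset then x i else 1) * trunc enc n x := by
    funext i
    rw [Pi.mul_apply]
    unfold trunc
    by_cases h : enc i < n
    · rw [if_pos (hfin.mem_toFinset.2 h), if_neg (by omega), mul_one]
    · rw [if_neg (fun h' => h (hfin.mem_toFinset.1 h')), if_pos (by omega), one_mul]
  rw [h2]
  exact hV2 _ h1 _ (hn x)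

end

end Pool.Agent.Y397.RS
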