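import Mathlib
import Pool.Agent.H60R3.RsDefs

/-!
# General facts on `rs`, and the topology of pointwise convergence on products of symmetric groups
-/

set_option linter.style.haveILetI false
set_option warn.classDefReducibility false

namespace Pool.Agent.Y397.RS

open Filter Topology Pool.Agent.H60R3

section general

variable {G : Type} [Group G]

theorem le_of_nhds_one {τ σ : TopologicalSpace G} (hτ : @IsTopologicalGroup G τ _)
    (hσ : @IsTopologicalGroup G σ _) (h1 : @nhds G τ 1 ≤ @nhds G σ 1) : τ ≤ σ := by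
  rw [le_iff_nhds]
  intro g
  have h3 : @nhds _ τ g = map (g * ·) (@nhds _ τ 1) := by
    letI := τ
    exact (map_mul_left_nhds_one g).symm
  have h4 : @nhds _ σ g = map (g * ·) (@nhds _ σ 1) := by
    letI := σ
    exact (map_mul_left_nhds_one g).symm
  rw [h3, h4]
  exact Filter.map_mono h1

/-- All the sequences which converge to `1` generate a first countable group topology. -/
theorem generates_all {τ : TopologicalSpace G} (hτ : @IsTopologicalGroup G τ _)
    (hc : (@nhds G τ 1).IsCountablyGenerated) :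
    Generates τ {u : ℕ → G | Tendsto u atTop (@nhds G τ 1)} := by
  refine ⟨fun u hu => hu, fun σ hσ _ hS => le_of_nhds_one hτ hσ ?_⟩
  have h : Tendsto (id : G → G) (@nhds G τ 1) (@nhds G σ 1) :=
    tendsto_of_seq_tendsto fun u hu => hS u hu
  rwa [Tendsto, Filter.map_id] at h

/-- Countably many convergent sequences are merged into one. -/
theorem merge {τ : TopologicalSpace G} (hc : (@nhds G τ 1).IsCountablyGenerated)
    (a : ℕ → ℕ → G) (ha : ∀ n, Tendsto (a n) atTop (@nhds G τ 1)) :
    ∃ s : ℕ → G, Tendsto s atTop (@nhds G τ 1) ∧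
      ∀ σ : TopologicalSpace G, Tendsto s atTop (@nhds G σ 1) →
        ∀ n, Tendsto (a n) atTop (@nhds G σ 1) := by
  classical
  obtain ⟨U, hU⟩ := (@nhds G τ 1).exists_antitone_basis
  have h1 : ∀ n, ∃ J, ∀ j, J ≤ j → a n j ∈ U n := fun n => by
    have := (ha n) (hU.toHasBasis.mem_of_mem (i := n) trivial)
    rwa [mem_map, mem_atTop_sets] at this
  choose J hJ using h1
  let s : ℕ → G := fun k => if J k.unpair.1 ≤ k.unpair.2 then a k.unpair.1 k.unpair.2 else 1
  refine ⟨s, ?_, fun σ hσ n => ?_⟩
  · rw [hU.toHasBasis.tendsto_right_iff]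
    intro m _
    have h2 : ∀ n, ∃ L, ∀ j, L ≤ j → a n j ∈ U m := fun n => by
      have := (ha n) (hU.toHasBasis.mem_of_mem (i := m) trivial)
      rwa [mem_map, mem_atTop_sets] at this
    choose L hL using h2
    have hfin : {k : ℕ | s k ∉ U m}.Finite := by
      apply Set.Finite.subset
        ((Set.finite_Iio m).biUnion fun n _ => (Set.finite_Iio (L n)).image (Nat.pair n))
      intro k hk
      have hk' : s k ∉ U m := hk
      have h3 : J k.unpair.1 ≤ k.unpair.2 := by
        by_contra h
        apply hk'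
        have : s k = 1 := if_neg h
        rw [this]
        exact mem_of_mem_nhds (hU.toHasBasis.mem_of_mem (i := m) trivial)
      have h4 : s k = a k.unpair.1 k.unpair.2 := if_pos h3
      rw [h4] at hk'
      have h5 : k.unpair.1 < m := by
        by_contra h
        exact hk' (hU.antitone (not_lt.1 h) (hJ _ _ h3))
      have h6 : k.unpair.2 < L k.unpair.1 := by
        by_contra h
        exact hk' (hL _ _ (not_lt.1 h))
      exact Set.mem_biUnion h5 ⟨k.unpair.2, h6, Nat.pair_unpair k⟩
    rw [← Nat.cofinite_eq_atTop]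
    exact hfin
  · have h2 : Tendsto (fun j => s (Nat.pair n j)) atTop (@nhds G σ 1) :=
      hσ.comp (tendsto_atTop_mono (fun j => Nat.right_le_pair n j) tendsto_id)
    refine h2.congr' ?_
    filter_upwards [eventually_ge_atTop (J n)] with j hj
    change (if J (Nat.pair n j).unpair.1 ≤ (Nat.pair n j).unpair.2 then
      a (Nat.pair n j).unpair.1 (Nat.pair n j).unpair.2 else 1) = a n j
    rw [Nat.unpair_pair]
    exact if_pos hj

theorem one_le_rs {τ : TopologicalSpace G} (hne : ∃ S : Set (ℕ → G), Generates τ S)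
    (hd : ¬ @DiscreteTopology G τ) : 1 ≤ rs τ := by
  obtain ⟨S0, hS0⟩ := hne
  refine le_csInf ⟨_, S0, hS0, rfl⟩ ?_
  rintro κ ⟨S, hS, rfl⟩
  rw [Cardinal.one_le_iff_ne_zero]
  intro h0
  rw [Cardinal.mk_eq_zero_iff] at h0
  apply hd
  have h1 : τ ≤ ⊥ := by
    refine hS.2 ⊥ ?_ ?_ ?_
    · letI : TopologicalSpace G := ⊥
      haveI : DiscreteTopology G := ⟨rfl⟩
      infer_instance
    · letI : TopologicalSpace G := ⊥
      haveI : DiscreteTopology G := ⟨rfl⟩
      infer_instance
    · intro u hu
      exact (h0.false ⟨u, hu⟩).elim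
  exact @DiscreteTopology.mk _ τ (le_bot_iff.1 h1)

/-- A countable generating set may be replaced by a generating set with one element. -/
theorem generates_single {τ : TopologicalSpace G} (hc : (@nhds G τ 1).IsCountablyGenerated)
    {S : Set (ℕ → G)} (hS : Generates τ S) (hco : S.Countable) :
    ∃ s : ℕ → G, Generates τ {s} := by
  rcases S.eq_empty_or_nonempty with h0 | h0
  · subst h0
    refine ⟨fun _ => 1, ?_, fun σ h1 h2 _ => hS.2 σ h1 h2 (by simp)⟩
    intro u hu
    rw [Set.mem_singleton_iff] at hu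
    rw [hu]
    exact tendsto_const_nhds
  · obtain ⟨a, ha⟩ := hco.exists_eq_range h0
    obtain ⟨s, h1, h2⟩ := merge hc a fun n => hS.1 _ (by rw [ha]; exact ⟨n, rfl⟩)
    refine ⟨s, ?_, fun σ h3 h4 h5 => hS.2 σ h3 h4 ?_⟩
    · intro u hu
      rw [Set.mem_singleton_iff] at hu
      rw [hu]
      exact h1
    · rw [ha]
      rintro _ ⟨n, rfl⟩
      exact h2 σ (h5 s rfl) n

/-- **Dichotomy.** `r_s` of a non-discrete first countable group is `1` or uncountable. -/
theorem dichotomy {τ : TopologicalSpace G} (hτ : @IsTopologicalGroup G τ _)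
    (hc : (@nhds G τ 1).IsCountablyGenerated) (hd : ¬ @DiscreteTopology G τ) :
    rs τ = 1 ∨ Cardinal.aleph0 < rs τ := by
  by_cases h : rs τ ≤ Cardinal.aleph0
  · left
    have hall := generates_all hτ hc
    apply le_antisymm _ (one_le_rs ⟨_, hall⟩ hd)
    obtain ⟨S, hS, hS'⟩ := csInf_mem (s := {κ : Cardinal | ∃ S : Set (ℕ → G), Generates τ S ∧
      Cardinal.mk S = κ}) ⟨_, _, hall, rfl⟩
    have h1 : S.Countable := by
      rw [← Cardinal.le_aleph0_iff_set_countable, hS']
      exact h
    obtain ⟨s, hs⟩ := generates_single hc hS h1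
    exact csInf_le' ⟨{s}, hs, Cardinal.mk_singleton _⟩
  · right
    exact not_le.1 h

omit [Group G] in
theorem isClosed_of_open [Group G] {τ : TopologicalSpace G} (hτ : @IsTopologicalGroup G τ _)
    (K : Subgroup G) (hK : @IsOpen G τ (K : Set G)) : @IsClosed G τ (K : Set G) := by
  letI := τ
  exact Subgroup.isClosed_of_isOpen K hK

omit [Group G] in
theorem mem_of_dense {τ : TopologicalSpace G} {D C : Set G} (hD : @Dense G τ D)
    (hC : @IsClosed G τ C) (h : D ⊆ C) (x : G) : x ∈ C := by
  letI := τ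
  have h1 := closure_minimal h hC
  apply h1
  rw [hD.closure_eq]
  trivial

/-- `r_s` is uncountable when there is a countable dense set and an uncountable abelian
quotient. -/
theorem aleph0_lt {τ : TopologicalSpace G} (hτ : @IsTopologicalGroup G τ _)
    (hT : @T2Space G τ)
    (hc : (@nhds G τ 1).IsCountablyGenerated) (hs : @TopologicalSpace.SeparableSpace G τ)
    {A : Type} [CommGroup A] (f : G →* A) (hf : Function.Surjective f) (hA : ¬ Countable A) :
    Cardinal.aleph0 < rs τ := by
  obtain ⟨S, hS, hS'⟩ := csInf_mem (s := {κ : Cardinal | ∃ S : Set (ℕ → G), Generates τ S ∧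
      Cardinal.mk S = κ}) ⟨_, _, generates_all hτ hc, rfl⟩
  change Cardinal.aleph0 < sInf _
  rw [← hS', ← not_le, Cardinal.le_aleph0_iff_set_countable]
  intro hco
  obtain ⟨D, hD, hDd⟩ := hs.exists_countable_dense
  -- a countable subgroup
  let T : Set A := f '' (D ∪ ⋃ u ∈ S, Set.range u)
  have hT1 : T.Countable :=
    (hD.union (hco.biUnion fun u _ => Set.countable_range u)).image f
  let H : Subgroup A := (FreeGroup.lift (fun t : T => (t : A))).range
  have hH : Countable H := by
    haveI : Countable T := hT1.to_subtype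
    haveI : Countable (FreeGroup T) := Quot.mk_surjective.countable
    exact Function.Surjective.countable (FreeGroup.lift (fun t : T => (t : A))).rangeRestrict_surjective
  have hTH : ∀ t ∈ T, t ∈ H := fun t ht => ⟨FreeGroup.of ⟨t, ht⟩, FreeGroup.lift_apply_of⟩
  let K : Subgroup G := H.comap f
  haveI : K.Normal := Subgroup.Normal.comap inferInstance f
  let q : G →* G ⧸ K := QuotientGroup.mk' K
  let σ0 : TopologicalSpace (G ⧸ K) := ⊥
  have hσ0 : @IsTopologicalGroup (G ⧸ K) σ0 _ := by
    letI := σ0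
    haveI : DiscreteTopology (G ⧸ K) := ⟨rfl⟩
    infer_instance
  let σ1 : TopologicalSpace G := TopologicalSpace.induced q σ0
  have hσ1 : @IsTopologicalGroup G σ1 _ := by
    letI := σ0
    exact topologicalGroup_induced q
  have hσ : @IsTopologicalGroup G (τ ⊓ σ1) _ := topologicalGroup_inf hτ hσ1
  have hσ2 : @T2Space G (τ ⊓ σ1) := t2Space_antitone inf_le_left hT
  have h1 : τ ≤ τ ⊓ σ1 := by
    refine hS.2 _ hσ hσ2 fun u hu => ?_
    have e0 : @nhds G (τ ⊓ σ1) 1 = @nhds G τ 1 ⊓ @nhds G σ1 1 :=
      nhds_inf (t₁ := τ) (t₂ := σ1) (a := 1)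
    rw [e0, tendsto_inf]
    refine ⟨hS.1 u hu, ?_⟩
    have h2 : ∀ n, q (u n) = 1 := fun n => by
      rw [QuotientGroup.mk'_apply, QuotientGroup.eq_one_iff]
      change f (u n) ∈ H
      apply hTH
      refine ⟨u n, Or.inr ?_, rfl⟩
      exact Set.mem_biUnion hu ⟨n, rfl⟩
    have e1 : @nhds G σ1 1 = comap q (@nhds _ σ0 (q 1)) := @nhds_induced _ _ σ0 q 1
    rw [e1, tendsto_comap_iff]
    have h3 : (q ∘ u) = fun _ => q 1 := by
      funext n
      rw [Function.comp_apply, h2 n, map_one]
    rw [h3]
    exact Filter.tendsto_const_pure.mono_right (@pure_le_nhds _ σ0 (q 1))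
  have h2 : τ ≤ σ1 := h1.trans inf_le_right
  have hKo : @IsOpen G τ (K : Set G) := by
    apply h2
    refine ⟨{1}, trivial, ?_⟩
    ext x
    rw [Set.mem_preimage, Set.mem_singleton_iff, QuotientGroup.mk'_apply,
      QuotientGroup.eq_one_iff]
    rfl
  have hKc : @IsClosed G τ (K : Set G) := 
    isClosed_of_open hτ K hKo
  have hKd : ∀ x, x ∈ K := by
    intro x
    refine mem_of_dense hDd hKc (fun d hd => ?_) x
    change f d ∈ H
    exact hTH _ ⟨d, Or.inl hd, rfl⟩
  apply hA
  have h3 : ∀ a : A, a ∈ H := fun a => by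
    obtain ⟨x, rfl⟩ := hf a
    exact hKd x
  exact Function.Injective.countable (f := fun a : A => (⟨a, h3 a⟩ : H))
    fun a b hab => congrArg Subtype.val hab

end general

end Pool.Agent.Y397.RS
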