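import Mathlib
import Pool.Agent.Y397.RS.Top

/-!
# The topology of pointwise convergence on a product of symmetric groups
-/

set_option linter.style.haveILetI false
set_option warn.classDefReducibility false

namespace Pool.Agent.Y397.RS

open Filter Topology Pool.Agent.H60R3

variable {ι : Type} (X : ι → Type)

/-- The topology of pointwise convergence on the product of the groups of all the permutations of
the (discrete) sets `X i`: the coarsest topology for which the maps `g ↦ g_i(x)` to discrete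
spaces are continuous. -/
def ptop : TopologicalSpace (∀ i, Equiv.Perm (X i)) :=
  TopologicalSpace.induced (fun (g : ∀ i, Equiv.Perm (X i)) (p : Σ i, X i) => g p.1 p.2)
    (@Pi.topologicalSpace (Σ i, X i) (fun p => X p.1) (fun _ => ⊥))

variable {X}

theorem nhds_ptop (g : ∀ i, Equiv.Perm (X i)) :
    @nhds _ (ptop X) g = ⨅ p : Σ i, X i, 𝓟 {h : ∀ i, Equiv.Perm (X i) | h p.1 p.2 = g p.1 p.2} := by
  letI : ∀ p : Σ i, X i, TopologicalSpace (X p.1) := fun _ => ⊥
  haveI : ∀ p : Σ i, X i, DiscreteTopology (X p.1) := fun _ => ⟨rfl⟩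
  have e : @nhds _ (ptop X) g = comap
      (fun (g : ∀ i, Equiv.Perm (X i)) (p : Σ i, X i) => g p.1 p.2)
      (nhds (fun p : Σ i, X i => g p.1 p.2)) := nhds_induced _ _
  rw [e, nhds_pi, Filter.pi, comap_iInf]
  refine iInf_congr fun p => ?_
  rw [comap_comap, nhds_discrete, ← principal_singleton, comap_principal]
  rfl

theorem tendsto_ptop {α : Type*} {F : Filter α} {u : α → ∀ i, Equiv.Perm (X i)}
    {g : ∀ i, Equiv.Perm (X i)} :
    Tendsto u F (@nhds _ (ptop X) g) ↔ ∀ i z, ∀ᶠ k in F, u k i z = g i z := by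
  rw [nhds_ptop, tendsto_iInf]
  simp only [tendsto_principal]
  constructor
  · intro h i z
    exact h ⟨i, z⟩
  · intro h p
    exact h p.1 p.2

theorem eventually_eval (g : ∀ i, Equiv.Perm (X i)) (i : ι) (z : X i) :
    ∀ᶠ h in @nhds _ (ptop X) g, h i z = g i z :=
  tendsto_ptop.1 (tendsto_id (α := ∀ i, Equiv.Perm (X i))) i z

theorem isTopologicalGroup : @IsTopologicalGroup (∀ i, Equiv.Perm (X i)) (ptop X) _ := by
  letI := ptop X
  refine @IsTopologicalGroup.mk _ _ _ (ContinuousMul.mk ?_) (ContinuousInv.mk ?_)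
  · rw [continuous_iff_continuousAt]
    rintro ⟨g, h⟩
    rw [ContinuousAt]
    refine tendsto_ptop.2 fun i z => ?_
    rw [nhds_prod_eq]
    have h1 : ∀ᶠ p : (∀ i, Equiv.Perm (X i)) × (∀ i, Equiv.Perm (X i)) in nhds g ×ˢ nhds h,
        p.1 i (h i z) = g i (h i z) := Filter.Eventually.prod_inl (eventually_eval g i (h i z)) _
    have h2 : ∀ᶠ p : (∀ i, Equiv.Perm (X i)) × (∀ i, Equiv.Perm (X i)) in nhds g ×ˢ nhds h,
        p.2 i z = h i z := Filter.Eventually.prod_inr (eventually_eval h i z) _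
    filter_upwards [h1, h2] with p h3 h4
    simp [Equiv.Perm.mul_apply, h3, h4]
  · rw [continuous_iff_continuousAt]
    intro g
    rw [ContinuousAt]
    refine tendsto_ptop.2 fun i z => ?_
    filter_upwards [eventually_eval g i ((g i)⁻¹ z)] with h h1
    rw [Pi.inv_apply, Pi.inv_apply, Equiv.Perm.inv_eq_iff_eq, h1]
    exact ((g i).apply_symm_apply z).symm

section countable

variable [Countable ι] [∀ i, Countable (X i)]

omit [Countable ι] [∀ i, Countable (X i)] in
theorem ev_injective : Function.Injective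
    (fun (g : ∀ i, Equiv.Perm (X i)) (p : Σ i, X i) => g p.1 p.2) := by
  intro g h hgh
  funext i
  ext z
  exact congrFun hgh ⟨i, z⟩

theorem metrizable : @TopologicalSpace.MetrizableSpace _ (ptop X) := by
  letI : ∀ p : Σ i, X i, TopologicalSpace (X p.1) := fun _ => ⊥
  haveI : ∀ p : Σ i, X i, DiscreteTopology (X p.1) := fun _ => ⟨rfl⟩
  letI := ptop X
  have h : IsEmbedding (fun (g : ∀ i, Equiv.Perm (X i)) (p : Σ i, X i) => g p.1 p.2) :=
    ⟨⟨rfl⟩, ev_injective⟩
  exact h.metrizableSpace

theorem separable : @TopologicalSpace.SeparableSpace _ (ptop X) := by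
  letI : ∀ p : Σ i, X i, TopologicalSpace (X p.1) := fun _ => ⊥
  haveI : ∀ p : Σ i, X i, DiscreteTopology (X p.1) := fun _ => ⟨rfl⟩
  letI := ptop X
  have h : IsEmbedding (fun (g : ∀ i, Equiv.Perm (X i)) (p : Σ i, X i) => g p.1 p.2) :=
    ⟨⟨rfl⟩, ev_injective⟩
  haveI : SecondCountableTopology (∀ i, Equiv.Perm (X i)) := h.secondCountableTopology
  infer_instance

theorem t2 : @T2Space _ (ptop X) := by
  letI := ptop X
  haveI := metrizable (X := X)
  infer_instance

theorem cg (g : ∀ i, Equiv.Perm (X i)) : (@nhds _ (ptop X) g).IsCountablyGenerated := by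
  letI := ptop X
  haveI := metrizable (X := X)
  letI := TopologicalSpace.metrizableSpaceMetric (∀ i, Equiv.Perm (X i))
  infer_instance

end countable

/-! ### Signs -/

/-- The product of the sign maps of the finite factors. -/
theorem exists_signs (h : {i | Finite (X i) ∧ Nontrivial (X i)}.Infinite) :
    ∃ f : (∀ i, Equiv.Perm (X i)) →* ({i | Finite (X i) ∧ Nontrivial (X i)} → ℤˣ),
      Function.Surjective f := by
  classical
  have h1 : ∀ i : {i | Finite (X i) ∧ Nontrivial (X i)},
      ∃ s : Equiv.Perm (X i) →* ℤˣ, Function.Surjective s := by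
    rintro ⟨i, h1, h2⟩
    haveI : Finite (X i) := h1
    haveI : Nontrivial (X i) := h2
    letI := Fintype.ofFinite (X i)
    exact ⟨Equiv.Perm.sign, Equiv.Perm.sign_surjective _⟩
  choose s hs using h1
  refine ⟨MonoidHom.pi fun i => (s i).comp (Pi.evalMonoidHom (fun i => Equiv.Perm (X i)) i.1), ?_⟩
  intro y
  choose x hx using fun i => hs i (y i)
  refine ⟨fun i => if h : i ∈ {i | Finite (X i) ∧ Nontrivial (X i)} then x ⟨i, h⟩ else 1, ?_⟩
  funext i
  change s i (dite _ _ _) = y i
  rw [dif_pos i.2]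
  exact hx i

theorem not_countable_signs {E : Type} [Infinite E] : ¬ Countable (E → ℤˣ) := by
  intro h
  have h1 : Cardinal.mk (E → ℤˣ) ≤ Cardinal.aleph0 := Cardinal.mk_le_aleph0
  have h2 : Cardinal.aleph0 ≤ Cardinal.mk E := Cardinal.aleph0_le_mk E
  have h3 := Cardinal.cantor (Cardinal.mk E)
  have h4 : Cardinal.mk (E → ℤˣ) = 2 ^ Cardinal.mk E := by
    rw [← Cardinal.power_def]
    congr 1
    rw [Cardinal.mk_fintype]
    rfl
  rw [h4] at h1
  exact absurd (h3.trans_le h1) (not_lt.2 h2)

theorem aleph0_lt_rs [Countable ι] [∀ i, Countable (X i)]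
    (h : {i | Finite (X i) ∧ Nontrivial (X i)}.Infinite) : Cardinal.aleph0 < rs (ptop X) := by
  obtain ⟨f, hf⟩ := exists_signs h
  haveI : Infinite {i | Finite (X i) ∧ Nontrivial (X i)} := h.to_subtype
  exact aleph0_lt isTopologicalGroup t2 (cg 1) separable f hf not_countable_signs

end Pool.Agent.Y397.RS
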