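import Mathlib
import Pool.Agent.Y397.RS.Perm
import Pool.Agent.Y397.RS.Main

/-!
# Products of symmetric groups whose topology is generated by one sequence
-/

set_option linter.style.haveILetI false

namespace Pool.Agent.Y397.RS

open Function Filter Topology Pool.Agent.H60R3

variable {ι : Type} {X : ι → Type}

/-- For an infinite set `X i`, an isomorphism of `Sym(ℕ)` with the group of all the permutations
of `X i`. -/
noncomputable def cc (e : ∀ i, Infinite (X i) → (X i ≃ ℕ)) (i : ι) (h : Infinite (X i)) :
    Equiv.Perm ℕ →* Equiv.Perm (X i) where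
  toFun p := (e i h).symm.permCongr p
  map_one' := by
    ext z
    simp [Equiv.permCongr_apply]
  map_mul' p q := by
    ext z
    simp [Equiv.permCongr_apply]

theorem cc_apply (e : ∀ i, Infinite (X i) → (X i ≃ ℕ)) (i : ι) (h : Infinite (X i))
    (p : Equiv.Perm ℕ) (z : X i) : cc e i h p z = (e i h).symm (p (e i h z)) := by
  change (e i h).symm.permCongr p z = _
  simp [Equiv.permCongr_apply]

open Classical in
/-- The homomorphism of `Sym(ℕ)^ι` to the product of the groups of permutations of the `X i`. -/
noncomputable def Ph (e : ∀ i, Infinite (X i) → (X i ≃ ℕ)) :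
    (ι → Equiv.Perm ℕ) →* (∀ i, Equiv.Perm (X i)) :=
  MonoidHom.pi fun i => if h : Infinite (X i) then
    (cc e i h).comp (Pi.evalMonoidHom (fun _ => Equiv.Perm ℕ) i) else 1

open Classical in
theorem Ph_inf (e : ∀ i, Infinite (X i) → (X i ≃ ℕ)) (p : ι → Equiv.Perm ℕ) {i : ι}
    (h : Infinite (X i)) : Ph e p i = cc e i h (p i) := by
  change (if h : Infinite (X i) then
    (cc e i h).comp (Pi.evalMonoidHom (fun _ => Equiv.Perm ℕ) i) else 1 : _ →* _) p = _
  rw [dif_pos h]
  rfl

open Classical in
theorem Ph_fin (e : ∀ i, Infinite (X i) → (X i ≃ ℕ)) (p : ι → Equiv.Perm ℕ) {i : ι}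
    (h : ¬ Infinite (X i)) : Ph e p i = 1 := by
  change (if h : Infinite (X i) then
    (cc e i h).comp (Pi.evalMonoidHom (fun _ => Equiv.Perm ℕ) i) else 1 : _ →* _) p = _
  rw [dif_neg h]
  rfl

theorem one_apply (i : ι) (z : X i) : (1 : ∀ i, Equiv.Perm (X i)) i z = z := rfl

/-- The topology is generated by countably many sequences. -/
theorem generates [Countable ι] [∀ i, Countable (X i)]
    (hfin : {i | Finite (X i) ∧ Nontrivial (X i)}.Finite) :
    ∃ S : Set (ℕ → ∀ i, Equiv.Perm (X i)), S.Countable ∧ Generates (ptop X) S := by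
  classical
  obtain ⟨enc, henc⟩ := exists_injective_nat ι
  have he : ∀ i, Infinite (X i) → Nonempty (X i ≃ ℕ) := fun i h =>
    ⟨(nonempty_denumerable (X i)).some.eqv⟩
  choose e _ using fun i (h : Infinite (X i)) => (he i h).elim (fun a => (⟨a, trivial⟩ : ∃ _ : X i ≃ ℕ, True))
  let z : ℕ → ι → Equiv.Perm ℕ := fun k => trunc enc k (fun _ => Sym.v 0)
  let m : ι → ℕ → ι → Equiv.Perm ℕ := fun i j => Pi.mulSingle i (Sym.v j)
  refine ⟨insert (fun k => Ph e (z k)) (Set.range fun i k => Ph e (m i k)),
    (Set.countable_range _).insert _, ?_, ?_⟩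
  · intro u hu
    rcases hu with rfl | ⟨i, rfl⟩
    · refine tendsto_ptop.2 fun i y => ?_
      filter_upwards [eventually_gt_atTop (enc i)] with k hk
      rw [one_apply]
      by_cases h : Infinite (X i)
      · rw [Ph_inf e _ h]
        have h1 : z k i = 1 := by
          change (if k ≤ enc i then Sym.v 0 else 1) = 1
          exact if_neg (by omega)
        rw [h1, map_one]
        rfl
      · rw [Ph_fin e _ h]
        rfl
    · refine tendsto_ptop.2 fun l y => ?_
      by_cases h : Infinite (X l)
      · filter_upwards [eventually_gt_atTop (e l h y)] with k hk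
        rw [one_apply, Ph_inf e _ h, cc_apply]
        have h1 : m i k l (e l h y) = e l h y := by
          change (Pi.mulSingle i (Sym.v k) : ι → Equiv.Perm ℕ) l (e l h y) = _
          by_cases hl : l = i
          · subst hl
            rw [Pi.mulSingle_eq_same, Sym.v_apply]
            unfold Sym.w
            exact if_neg (by omega)
          · rw [Pi.mulSingle_eq_of_ne hl]
            rfl
        rw [h1, Equiv.symm_apply_apply]
      · filter_upwards with k
        rw [Ph_fin e _ h]
        rfl
  · intro σ hσ _ hS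
    refine le_of_nhds_one isTopologicalGroup hσ ?_
    intro W hW
    have hσ' : @IsTopologicalGroup (ι → Equiv.Perm ℕ) (TopologicalSpace.induced (Ph e) σ) _ :=
      topologicalGroup_induced (Ph e)
    have en : @nhds _ (TopologicalSpace.induced (Ph e) σ) (1 : ι → Equiv.Perm ℕ) =
        comap (Ph e) (@nhds _ σ (Ph e 1)) := @nhds_induced _ _ σ (Ph e) 1
    rw [map_one] at en
    have hz : Tendsto (fun k => trunc enc k (fun _ => Sym.v 0)) atTop
        (@nhds _ (TopologicalSpace.induced (Ph e) σ) 1) := by
      rw [en, tendsto_comap_iff]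
      exact hS _ (Or.inl rfl)
    have hm : ∀ i, Tendsto (fun j => (Pi.mulSingle i (Sym.v j) : ι → Equiv.Perm ℕ))
        atTop (@nhds _ (TopologicalSpace.induced (Ph e) σ) 1) := by
      intro i
      rw [en, tendsto_comap_iff]
      exact hS _ (Or.inr ⟨i, rfl⟩)
    have hW' : Ph e ⁻¹' W ∈ @nhds _ (TopologicalSpace.induced (Ph e) σ)
        (1 : ι → Equiv.Perm ℕ) := by
      rw [en]
      exact preimage_mem_comap hW
    obtain ⟨n, hn⟩ := stab_mem hσ' hz henc hm hW'
    have hfin1 : {i | enc i < n}.Finite := (Set.finite_Iio n).preimage henc.injOn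
    -- the finite factors
    have h1 : ∀ᶠ x in @nhds _ (ptop X) (1 : ∀ i, Equiv.Perm (X i)),
        ∀ i ∈ {i | Finite (X i) ∧ Nontrivial (X i)}, ∀ y : X i, x i y = y := by
      rw [eventually_all_finite hfin]
      intro i hi
      haveI : Finite (X i) := hi.1
      rw [eventually_all]
      exact fun y => eventually_eval 1 i y
    have h2 : ∀ᶠ x in @nhds _ (ptop X) (1 : ∀ i, Equiv.Perm (X i)),
        ∀ i ∈ {i | enc i < n}, ∀ y ∈ Finset.range n, ∀ h : Infinite (X i),
          x i ((e i h).symm y) = (e i h).symm y := by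
      rw [eventually_all_finite hfin1]
      intro i _
      rw [eventually_all_finset]
      intro y _
      by_cases h : Infinite (X i)
      · filter_upwards [eventually_eval (1 : ∀ i, Equiv.Perm (X i)) i ((e i h).symm y)] with x hx
        intro h'
        exact hx
      · filter_upwards with x
        intro h'
        exact absurd h' h
    filter_upwards [h1, h2] with x hx1 hx2
    let p : ι → Equiv.Perm ℕ := fun i =>
      if h : Infinite (X i) then (e i h).permCongr (x i) else 1
    have hp : Ph e p = x := by
      funext i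
      by_cases h : Infinite (X i)
      · rw [Ph_inf e _ h]
        ext y
        rw [cc_apply]
        have h3 : p i = (e i h).permCongr (x i) := dif_pos h
        rw [h3, Equiv.permCongr_apply, Equiv.symm_apply_apply, Equiv.symm_apply_apply]
      · rw [Ph_fin e _ h]
        ext y
        rw [Equiv.Perm.one_apply]
        have h4 : Finite (X i) := not_infinite_iff_finite.1 h
        by_cases h5 : Nontrivial (X i)
        · exact (hx1 i ⟨h4, h5⟩ y).symm
        · rw [not_nontrivial_iff_subsingleton] at h5
          exact Subsingleton.elim _ _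
    rw [← hp]
    apply hn
    intro i hi y hy
    by_cases h : Infinite (X i)
    · have h3 : p i = (e i h).permCongr (x i) := dif_pos h
      rw [h3, Equiv.permCongr_apply, hx2 i hi y (Finset.mem_range.2 hy) h,
        Equiv.apply_symm_apply]
    · have h3 : p i = 1 := dif_neg h
      rw [h3]
      rfl

/-- The topology is not discrete if some factor is infinite. -/
theorem not_discrete [Countable ι] [∀ i, Countable (X i)] {i : ι} (hi : Infinite (X i)) :
    ¬ @DiscreteTopology _ (ptop X) := by
  classical
  intro hd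
  have h1 : ∀ F : Finset (X i), ∃ g : Equiv.Perm (X i), g ≠ 1 ∧ ∀ y ∈ F, g y = y := by
    intro F
    obtain ⟨a, ha⟩ := Infinite.exists_notMem_finset F
    obtain ⟨b, hb⟩ := Infinite.exists_notMem_finset (insert a F)
    rw [Finset.mem_insert, not_or] at hb
    refine ⟨Equiv.swap a b, ?_, fun y hy => ?_⟩
    · rw [Ne, Equiv.swap_eq_one_iff]
      exact fun h => hb.1 h.symm
    · exact Equiv.swap_apply_of_ne_of_ne (fun h => ha (h ▸ hy)) (fun h => hb.2 (h ▸ hy))
  obtain ⟨U, hU⟩ := exists_seq_finset i
  choose g hg1 hg2 using fun k => h1 (U k)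
  have h2 : Tendsto (fun k => (Pi.mulSingle i (g k) : ∀ i, Equiv.Perm (X i))) atTop
      (@nhds _ (ptop X) 1) := by
    refine tendsto_ptop.2 fun l y => ?_
    by_cases hl : l = i
    · subst hl
      obtain ⟨K, hK⟩ := hU y
      filter_upwards [eventually_ge_atTop K] with k hk
      rw [Pi.mulSingle_eq_same]
      exact hg2 k y (hK k hk)
    · filter_upwards with k
      rw [Pi.mulSingle_eq_of_ne hl]
      rfl
  letI := ptop X
  rw [nhds_discrete, tendsto_pure] at h2
  obtain ⟨k, hk⟩ := h2.exists
  apply hg1 k
  have h3 := congrFun hk i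
  rwa [Pi.mulSingle_eq_same] at h3
where
  exists_seq_finset (i : ι) : ∃ U : ℕ → Finset (X i), ∀ y, ∃ K, ∀ k, K ≤ k → y ∈ U k := by
    classical
    obtain ⟨f, hf⟩ := exists_injective_nat (X i)
    refine ⟨fun k => ((Set.finite_Iio k).preimage hf.injOn).toFinset, fun y => ⟨f y + 1, ?_⟩⟩
    intro k hk
    rw [Set.Finite.mem_toFinset]
    exact hk

/-- `r_s = 1` if some factor is infinite and only finitely many factors are finite and
nontrivial. -/
theorem rs_eq_one [Countable ι] [∀ i, Countable (X i)]
    (hfin : {i | Finite (X i) ∧ Nontrivial (X i)}.Finite) (hinf : ∃ i, Infinite (X i)) :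
    rs (ptop X) = 1 := by
  obtain ⟨S, hS, hS2⟩ := generates hfin
  obtain ⟨i, hi⟩ := hinf
  apply le_antisymm _ (one_le_rs ⟨_, hS2⟩ (not_discrete hi))
  obtain ⟨s, hs⟩ := generates_single (cg 1) hS2 hS
  exact csInf_le' ⟨{s}, hs, Cardinal.mk_singleton _⟩

end Pool.Agent.Y397.RS
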